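import Pool.Agent.Y148.KP.TranslateAlg

/-!
# Independence of the Chow-Kunneth filtration and algebraically trivial cycles

`𝒱` is any class of smooth projective geometrically irreducible varieties over the field `k` closed
under products (for example all complex ones, or all products of complex curves), `C` the Chow
groups with rational coefficients (in the form of their formal properties, `IsChowProj`), `H` a Weil
cohomology theory (`IsWeilProj`), and `E` a fixed curve in `𝒱` of positive genus (for example an
elliptic curve): the restriction of `Δ - o × E - E × o` to the diagonal, a zero-cycle of degree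
`-2g`, is not homologically trivial. The geometric input is the theorem of Bloch and Srinivas for
products with curves (`FibreProperty`).

The following are equivalent:

1. Murre's conjecture (C) for all `X` in `𝒱`: the steps `F^ν CH^j(X)` do not depend on the
   Chow-Kunneth decomposition;
2. for all `X` and all Chow-Kunneth decompositions of `X` the algebraically trivial cycles are in
   `F^1 CH^i(X)`; they are the sums of cycles `Γ_* ξ`, where `ξ` is a divisor of degree zero on a
   curve `T` and `Γ ∈ CH^i(T × X)`;
3. for all `X` with `dim X = 2i` or `dim X = 2i - 1` and all Chow-Kunneth decompositions of `X` the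
   cycles `Γ_* ξ` with `Γ ∈ CH^i(E × X)` and `ξ` a divisor of degree zero on `E` are in
   `F^1 CH^i(X)`.

So the independence conjecture is equivalent to the part of Murre's conjecture (D) which
concerns the algebraically trivial cycles.

Proof of 3 ⇒ 1. It is enough to show that `F^0 CH^i(X) = CH^i(X)` if `dim X = 2i`. Let
`y = (π_a)_* y ∈ CH^i(X)`, `a > 2i`. If `ξ` is a divisor of degree zero on `E` then the cycle `y × ξ`
of weight `a + 1 ≥ 2(i + 1)` on `X × E` is of the form `Γ_* ξ`, so it is zero. Hence the class
`y × h^1(E)` on `X × E × E` vanishes on all fibres over the second factor, and so it is a sum of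
classes `x × ξ` with `x ∈ CH^i(X × E)` and `ξ` of degree zero. Restricting to the diagonal of `E` and
applying `π_a` after the push-forward to `X`, the class `y × h^1(E)` becomes `-2g y`, and `x × ξ`
becomes `(π_a)_* (x_* ξ) = 0`.
-/

open CategoryTheory AlgebraicGeometry

set_option autoImplicit false

universe u v w

namespace Pool.Agent.Results.MP_10f4af_ag.AlgebraicallyTrivialCycles

open Pool.Agent.H914 Pool.Agent.H914.VarClass Pool.Agent.H914.VarClass.Obj Pool.Agent.W492.BB
  Pool.Agent.TH133 Pool.Agent.Y148.BS Pool.Agent.Y148.SS

/-- Murre's conjecture (C) for all varieties is equivalent to each of the following statements: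
all algebraically trivial cycles are in the step `F^1` of the filtrations attached to all Chow-Kunneth
decompositions; the same only for the cycles parametrised by one fixed curve `E` of positive genus,
in dimensions `2i` and `2i - 1`. -/
theorem result {k : Type u} [Field k] {𝒱 : VarClass k} (C : TheoryData.{u, v, 0} 𝒱 ℚ)
    [IsChowProj C] {K : Type w} [Field K] (H : WeilTheoryData.{u, v, w} C K) [IsWeilProj H]
    (hF : FibreProperty C) (E : 𝒱.Obj) (o : C.A E) (hE : E.dim = 1) (ho : IsDegreeOne C o)
    (hg : ¬ IsHomTrivial H (C.up (Obj.lift (𝟙 E) (𝟙 E)) (oddPart C o))) :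
    List.TFAE [
      ∀ (X : 𝒱.Obj) (π π' : ℕ → C.A (X.prod X)), IsChowKunneth H π → IsChowKunneth H π' →
        ∀ (j ν : ℕ) (z : C.A X), InStep π j ν z ↔ InStep π' j ν z,
      ∀ (X : 𝒱.Obj) (π : ℕ → C.A (X.prod X)), IsChowKunneth H π → ∀ (i : ℕ) (T : 𝒱.Obj),
        T.dim = 1 → ∀ (Γ : C.A (T.prod X)) (ξ : C.A T), C.Deg i Γ → C.Deg 1 ξ →
          IsHomTrivial H ξ → InStep π i 1 (C.act Γ ξ),
      ∀ (X : 𝒱.Obj) (i : ℕ), (X.dim = 2 * i ∨ X.dim + 1 = 2 * i) →
        ∀ π : ℕ → C.A (X.prod X), IsChowKunneth H π → ∀ (Γ : C.A (E.prod X)) (ξ : C.A E),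
          C.Deg i Γ → C.Deg 1 ξ → IsHomTrivial H ξ → InStep π i 1 (C.act Γ ξ)] :=
  Pool.Agent.Y148.KP.algebraic hF hE ho hg

end Pool.Agent.Results.MP_10f4af_ag.AlgebraicallyTrivialCycles
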