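import Pool.Agent.Y106.CG.TopC

/-!
# Independence of the Chow-Kunneth filtration for the fibres of a family

Let `g : Z ⟶ S` be a morphism of smooth projective varieties over a field whose cohomology has the
decomposition into perverse pieces given by the decomposition theorem (`PerverseDecomposition`).
Suppose that the total space `Z` satisfies the standard conjecture B, that the homologically trivial
self-correspondences of degree zero of `Z` are nilpotent, that `Z` has a Chow-Kunneth decomposition,
and that the filtration of the Chow groups of `Z` does not depend on this decomposition (Q1, Murre's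
conjecture (C), for `Z`).

* Each smooth fibre `F` has systems `ρ` of projectors onto the fixed parts `i^* H^j(Z)` of the groups
  `H^j(F)`. For each such system `ρ_n` kills `CH^l(F)` for `n > 2 l`, and correspondences of degree
  zero between the fixed parts of any two smooth fibres do not raise weights: for `j < n` the maps
  `ρ'_n c_* ρ_j : CH^l(F) → CH^l(F')` are zero. So the filtrations of the Chow groups of the fixed
  parts are respected by all correspondences of degree zero.
* Q1 is true for each smooth fibre `F` whose homologically trivial self-correspondences of degree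
  zero are nilpotent and whose cohomology is spanned by the fixed part and classes of algebraic
  cycles (in all degrees).
* If this condition on the cohomology is satisfied in the degrees `j ≠ dim F` then Q1 for `F` is
  equivalent to the condition that correspondences do not raise weights into and out of the middle
  degree.

Idea of the proof: (C) for a variety `X` is equivalent to the vanishing of all `π_n c_* π_j` on the
Chow groups, `j < n`: such a correspondence `t` is homologically trivial with `t ^ 2 = 0`, so that the
conjugates of the `π_a` by `1 + t` form another Chow-Kunneth decomposition. The motives `(F, ρ_j)` are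
direct factors of the motives `h^j(Z)`.
-/

open CategoryTheory AlgebraicGeometry

universe u v

namespace Pool.Agent.Results.MP_10f4af_ag.FibresOfFamilies

open Pool.Agent.H914 Pool.Agent.H914.VarClass Pool.Agent.H914.VarClass.Obj Pool.Agent.W498.Dom
  Pool.Agent.Y106.CG

/-- Murre's conjecture (C) for the fibres of a family. -/
theorem result {k : Type u} [Field k] {𝒱 : VarClass k} {ops : CycleOps 𝒱}
    {W : WeilCohomology.{u, v} ops} {R : CycRel 𝒱} (hR : IsChow W R)
    {Z S : 𝒱.Obj} {g : Z ⟶ S} {G : S.Cycles} {E D : Z.Cycles}
    (hG : S.IsCyc 1 G) (hE : Z.IsCyc 1 E) (Q : PerverseDecomposition W g G E)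
    (hB : StandardB W Z D) (hN : NilHomTrivial W R Z)
    {π : ℕ → (Z.prod Z).Cycles} (hπ : IsCKDec W R Z π) (hI : MurreC R W Z) :
    (∀ (F : 𝒱.Obj) (i : F ⟶ Z), IsSmoothFibre Q i → ∃ ρ, IsFixedSystem W R i ρ) ∧
    (∀ (F F' : 𝒱.Obj) (i : F ⟶ Z) (i' : F' ⟶ Z) (ρ : ℕ → (F.prod F).Cycles)
      (ρ' : ℕ → (F'.prod F').Cycles), IsSmoothFibre Q i → IsSmoothFibre Q i' →
      IsFixedSystem W R i ρ → IsFixedSystem W R i' ρ' →
      ZeroAbove ops R ρ ∧ ∀ j n, j < n → NoRaise ops R ρ ρ' j n) ∧
    (∀ (F : 𝒱.Obj) (i : F ⟶ Z), IsSmoothFibre Q i → NilHomTrivial W R F →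
      AllFixedOrAlgebraic W i → MurreC R W F ∧ ∃ π', IsCKDec W R F π') ∧
    (∀ (F : 𝒱.Obj) (i : F ⟶ Z), IsSmoothFibre Q i → NilHomTrivial W R F →
      FixedOrAlgebraic W i → (∃ π', IsCKDec W R F π') ∧
        ∀ π', IsCKDec W R F π' → (MurreC R W F ↔
          ∀ j n, j < n → (j = F.dim ∨ n = F.dim) → NoRaise ops R π' π' j n)) :=
  Pool.Agent.Y106.CG.topC hR hG hE Q hB hN hπ hI

end Pool.Agent.Results.MP_10f4af_ag.FibresOfFamilies
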