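import Pool.Agent.Y110.Main

/-!
# The independence of the Chow-Kunneth filtration and finite-dimensional motives

`𝒱` is any class of smooth projective geometrically irreducible varieties over the field `k` closed
under products (for example all of them, or the powers of one variety), `C` the Chow groups with
rational coefficients (in the form of their formal properties, `IsChowProj`) and `H` a Weil
cohomology theory (`IsWeilProj`, `GradedCommutative`).
-/

open CategoryTheory AlgebraicGeometry

set_option autoImplicit false

universe u v w

namespace Pool.Agent.Results.MP_10f4af_ag.KimuraFiniteness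

open Pool.Agent.H914 Pool.Agent.W492.BB Pool.Agent.TH133 Pool.Agent.TH829.Kim Pool.Agent.Y110

/-- Murre's independence conjecture (C) is equivalent to the following statement: for every variety
`X` with a Chow-Kunneth decomposition the motive of `X` is finite-dimensional in the sense of Kimura
and O'Sullivan, and `F^0 CH^i(X) = CH^i(X)` for one decomposition of `X`. It is also equivalent to
the same statement with the condition that the motive of `X` has no phantoms instead of the
condition that it is finite-dimensional. -/
theorem result {k : Type u} [Field k] {𝒱 : VarClass k} (C : TheoryData.{u, v, 0} 𝒱 ℚ)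
    [IsChowProj C] {K : Type w} [Field K] (H : WeilTheoryData.{u, v, w} C K) [IsWeilProj H]
    (hg : GradedCommutative H) :
    List.TFAE [∀ X : 𝒱.Obj, Independent H X,
      ∀ X : 𝒱.Obj, (∃ π, IsCK H X π) → IsKimuraFinite C (ratFam C) X ∧
        ∃ π, IsCK H X π ∧ ∀ i : ℕ, fil C π i 0 = C.gr X i,
      ∀ X : 𝒱.Obj, (∃ π, IsCK H X π) → NoPhantoms H X ∧
        ∃ π, IsCK H X π ∧ ∀ i : ℕ, fil C π i 0 = C.gr X i] := by
  tfae_have 1 → 2 := by
    intro h X hX
    refine ⟨kimura_of_noPhantoms hg (noPhantoms_of_C h) X hX, ?_⟩
    obtain ⟨π, hπ⟩ := hX
    exact ⟨π, hπ, fun i => zeroIsAll_of_C h X i π hπ⟩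
  tfae_have 2 → 3 := fun h X hX => ⟨noPhantoms_of_kimura (h X hX).1, (h X hX).2⟩
  tfae_have 3 → 1 := by
    intro h
    apply C_of_zeroIsAll
    apply zeroIsAll_of_kimura
    intro X hX
    exact ⟨kimura_of_noPhantoms hg (fun Y hY => (h Y hY).1) X hX, (h X hX).2⟩
  tfae_finish

end Pool.Agent.Results.MP_10f4af_ag.KimuraFiniteness
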