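import Pool.Agent.Y110.Indep

/-!
# The independence of the Chow-Kunneth filtration is decided by its step zero

`𝒱` is any class of smooth projective geometrically irreducible varieties over the field `k` closed
under products (for example all of them), `C` the Chow groups with rational coefficients (in the
form of their formal properties, `IsChowProj`) and `H` a Weil cohomology theory (`IsWeilProj`).
-/

open CategoryTheory AlgebraicGeometry

set_option autoImplicit false

universe u v w

namespace Pool.Agent.Results.MP_10f4af_ag.ZeroStepDecides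

open Pool.Agent.H914 Pool.Agent.W492.BB Pool.Agent.TH133 Pool.Agent.Y110

/-- Murre's independence conjecture (C) is equivalent to the independence of the step `F^0` in the
middle codimension, to `F^0 CH^i = CH^i` (the first half of Murre's conjecture (B)), to the fact
that correspondences do not raise weights, to the fact that the diagonals lie in `F^0`, and to the
uniqueness of Chow-Kunneth decompositions up to conjugation by unipotent, weight lowering
correspondences. -/
theorem result {k : Type u} [Field k] {𝒱 : VarClass k} (C : TheoryData.{u, v, 0} 𝒱 ℚ)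
    [IsChowProj C] {K : Type w} [Field K] (H : WeilTheoryData.{u, v, w} C K) [IsWeilProj H] :
    (∀ X : 𝒱.Obj, (IndependentZero H (X.prod X) X.dim → UnipotentConjugate H X) ∧
      (UnipotentConjugate H X → Independent H X) ∧
      (Independent H X → ∀ i, ZeroIsAll H X i)) ∧
    List.TFAE [∀ X : 𝒱.Obj, Independent H X,
      ∀ (X : 𝒱.Obj) (i : ℕ), IndependentZero H X i,
      ∀ (X : 𝒱.Obj) (i : ℕ), X.dim = 2 * i → IndependentZero H X i,
      ∀ (X : 𝒱.Obj) (i : ℕ), ZeroIsAll H X i,
      ∀ (X : 𝒱.Obj) (i : ℕ), X.dim = 2 * i → ZeroIsAll H X i,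
      ∀ X Y : 𝒱.Obj, NoRaising H X Y,
      ∀ X : 𝒱.Obj, DiagonalInZero H X,
      ∀ X : 𝒱.Obj, UnipotentConjugate H X] := by
  have hd : ∀ X : 𝒱.Obj, (X.prod X).dim = 2 * X.dim := fun X => by
    rw [VarClass.Obj.dim_prod, two_mul]
  have h1 : ∀ X : 𝒱.Obj, IndependentZero H (X.prod X) X.dim → UnipotentConjugate H X :=
    fun X h => unipotent_of_triangular (triangular_of_diag (diag_of_indepZero h))
  have h2 : ∀ X : 𝒱.Obj, UnipotentConjugate H X → Independent H X :=
    fun X h => independent_of_unipotent h
  have h3 : ∀ X : 𝒱.Obj, Independent H X → ∀ i, ZeroIsAll H X i :=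
    fun X h i => zeroIsAll_of_indepZero (independentZero_of h) i
  refine ⟨fun X => ⟨h1 X, h2 X, h3 X⟩, ?_⟩
  tfae_have 1 → 2 := fun h X i => independentZero_of (h X) i
  tfae_have 2 → 3 := fun h X i _ => h X i
  tfae_have 3 → 7 := fun h X => diag_of_indepZero (h _ _ (hd X))
  tfae_have 1 → 4 := fun h X => h3 X (h X)
  tfae_have 4 → 5 := fun h X i _ => h X i
  tfae_have 5 → 7 := fun h X => diag_of_zeroIsAll (h _ _ (hd X))
  tfae_have 4 → 6 := fun h X Y => noRaising_of_zeroIsAll (h _)
  tfae_have 6 → 7 := fun h X => diag_of_triangular (triangular_of_noRaising (h X X))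
  tfae_have 7 → 8 := fun h X => unipotent_of_triangular (triangular_of_diag (h X))
  tfae_have 8 → 1 := fun h X => h2 X (h X)
  tfae_finish

end Pool.Agent.Results.MP_10f4af_ag.ZeroStepDecides
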